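import Mathlib

/-!
# The Lovasz local lemma

* `lll_finite`: asymmetric version on a finite product `V → α` (uniform measure, counting form).
* `lll_compact`: version for infinitely many events and variables, with the summation condition
  `∑_{j ∋ v} x j ≤ σ` and `P(A i) ≤ x i * exp (-2 σ |W i|)`.
-/

set_option autoImplicit false

open scoped BigOperators

namespace Pool.Agent.Common_LLL

section finite

variable {V α : Type*} [Fintype V] [DecidableEq V] [Fintype α] [DecidableEq α]

/-- Independence in counting form. -/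
theorem card_inter_mul (W : Finset V) (A E : Finset (V → α))
    (hA : ∀ ω ω' : V → α, (∀ v ∈ W, ω v = ω' v) → ω ∈ A → ω' ∈ A)
    (hE : ∀ ω ω' : V → α, (∀ v, v ∉ W → ω v = ω' v) → ω ∈ E → ω' ∈ E) :
    (A ∩ E).card * Fintype.card (V → α) = A.card * E.card := by
  classical
  rw [← Finset.card_univ, ← Finset.card_product, ← Finset.card_product]
  refine Finset.card_nbij' (fun p => (W.piecewise p.1 p.2, W.piecewise p.2 p.1))
    (fun p => (W.piecewise p.1 p.2, W.piecewise p.2 p.1)) ?_ ?_ ?_ ?_
  · rintro ⟨ω, ω'⟩ h
    simp only [Finset.coe_product, Finset.coe_univ, Set.mem_prod, Finset.mem_coe,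
      Finset.mem_inter, Set.mem_univ, and_true] at h ⊢
    refine ⟨hA ω _ ?_ h.1, hE ω _ ?_ h.2⟩
    · intro v hv; simp [hv]
    · intro v hv; simp [hv]
  · rintro ⟨ω, ω'⟩ h
    simp only [Finset.coe_product, Finset.coe_univ, Set.mem_prod, Finset.mem_coe,
      Finset.mem_inter, Set.mem_univ, and_true] at h ⊢
    refine ⟨hA ω _ ?_ h.1, hE ω' _ ?_ h.2⟩
    · intro v hv; simp [hv]
    · intro v hv; simp [hv]
  · rintro ⟨ω, ω'⟩ _
    simp only [Prod.mk.injEq]
    constructor <;> (funext v; by_cases hv : v ∈ W <;> simp [hv])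
  · rintro ⟨ω, ω'⟩ _
    simp only [Prod.mk.injEq]
    constructor <;> (funext v; by_cases hv : v ∈ W <;> simp [hv])

/-- The set of colourings avoiding the events with index in `S`. -/
def avoid {ι : Type*} (A : ι → Finset (V → α)) (S : Finset ι) : Finset (V → α) :=
  Finset.univ.filter fun ω => ∀ j ∈ S, ω ∉ A j

theorem avoid_insert {ι : Type*} [DecidableEq ι] (A : ι → Finset (V → α)) (S : Finset ι) (i : ι) :
    (avoid A (insert i S)).card = (avoid A S).card - (A i ∩ avoid A S).card := by
  have : avoid A (insert i S) = avoid A S \ (A i ∩ avoid A S) := by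
    ext ω
    simp only [avoid, Finset.mem_filter, Finset.mem_univ, true_and, Finset.mem_insert,
      forall_eq_or_imp, Finset.mem_sdiff, Finset.mem_inter]
    tauto
  rw [this, Finset.card_sdiff_of_subset Finset.inter_subset_right]

/-- **Lovasz local lemma**, finite asymmetric version. -/
theorem lll_finite [Nonempty α] {ι : Type*} [Fintype ι] [DecidableEq ι]
    (A : ι → Finset (V → α)) (W : ι → Finset V)
    (hA : ∀ i, ∀ ω ω' : V → α, (∀ v ∈ W i, ω v = ω' v) → ω ∈ A i → ω' ∈ A i)
    (x : ι → ℝ) (hx0 : ∀ i, 0 ≤ x i) (hx1 : ∀ i, x i < 1)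
    (hP : ∀ i, ((A i).card : ℝ) ≤
      x i * (∏ j ∈ Finset.univ.filter (fun j => j ≠ i ∧ ¬ Disjoint (W j) (W i)), (1 - x j)) *
        Fintype.card (V → α)) :
    ∃ ω : V → α, ∀ i, ω ∉ A i := by
  classical
  have hΩ : (0 : ℝ) < Fintype.card (V → α) := by exact_mod_cast Fintype.card_pos
  have key : ∀ n : ℕ, ∀ S : Finset ι, S.card ≤ n → (0 : ℝ) < (avoid A S).card ∧
      ∀ i, i ∉ S → ((A i ∩ avoid A S).card : ℝ) ≤ x i * (avoid A S).card := by
    intro n
    induction n using Nat.strong_induction_on with
    | _ n ih =>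
    intro S hS
    -- lower bound when enlarging
    have hstep : ∀ S' : Finset ι, S'.card < S.card → ∀ j, j ∉ S' →
        (1 - x j) * (avoid A S').card ≤ ((avoid A (insert j S')).card : ℝ) := by
      intro S' hS' j hj
      have h1 := (ih S'.card (lt_of_lt_of_le hS' hS) S' le_rfl).2 j hj
      rw [avoid_insert, Nat.cast_sub (Finset.card_le_card Finset.inter_subset_right)]
      linarith
    constructor
    · rcases S.eq_empty_or_nonempty with rfl | ⟨j, hj⟩
      · simp only [avoid, Finset.notMem_empty, IsEmpty.forall_iff, implies_true,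
          Finset.filter_true, Finset.card_univ]
        exact hΩ
      · have hlt : (S.erase j).card < S.card := Finset.card_erase_lt_of_mem hj
        have h1 := (ih (S.erase j).card (lt_of_lt_of_le hlt hS) _ le_rfl).1
        have h2 := hstep (S.erase j) hlt j (Finset.notMem_erase _ _)
        rw [Finset.insert_erase hj] at h2
        have h3 : 0 < (1 - x j) := by linarith [hx1 j]
        exact lt_of_lt_of_le (mul_pos h3 h1) h2
    · intro i hi
      set S1 := S.filter (fun j => ¬ Disjoint (W j) (W i)) with hS1
      set S2 := S.filter (fun j => Disjoint (W j) (W i)) with hS2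
      -- independence
      have hind := card_inter_mul (W i) (A i) (avoid A S2) (hA i) (by
        intro ω ω' hωω hω
        simp only [avoid, Finset.mem_filter, Finset.mem_univ, true_and] at hω ⊢
        intro j hj hcon
        apply hω j hj
        refine hA j ω' ω ?_ hcon
        intro v hv
        have hd : Disjoint (W j) (W i) := (Finset.mem_filter.1 hj).2
        exact (hωω v (Finset.disjoint_left.1 hd hv)).symm)
      have h1 : ((A i ∩ avoid A S2).card : ℝ) ≤
          x i * (∏ j ∈ Finset.univ.filter (fun j => j ≠ i ∧ ¬ Disjoint (W j) (W i)), (1 - x j)) *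
            (avoid A S2).card := by
        have h2 : ((A i ∩ avoid A S2).card : ℝ) * Fintype.card (V → α) =
            (A i).card * (avoid A S2).card := by exact_mod_cast hind
        have h3 := mul_le_mul_of_nonneg_right (hP i) (Nat.cast_nonneg (avoid A S2).card)
        rw [← h2] at h3
        have h4 : ((A i ∩ avoid A S2).card : ℝ) * Fintype.card (V → α) ≤
          (x i * (∏ j ∈ Finset.univ.filter (fun j => j ≠ i ∧ ¬ Disjoint (W j) (W i)), (1 - x j)) *
            (avoid A S2).card) * Fintype.card (V → α) := by linarith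
        exact le_of_mul_le_mul_right h4 hΩ
      -- product lower bound
      have hprod : ∀ R ⊆ S1, (∏ j ∈ R, (1 - x j)) * (avoid A S2).card ≤
          ((avoid A (R ∪ S2)).card : ℝ) ∨ R = S1 ∧ (∏ j ∈ R, (1 - x j)) * (avoid A S2).card ≤
          ((avoid A (R ∪ S2)).card : ℝ) := by
        intro R
        induction R using Finset.induction_on with
        | empty => intro _; left; simp
        | insert a R ha ihR =>
          intro hR
          left
          have hR' : R ⊆ S1 := fun z hz => hR (Finset.mem_insert_of_mem hz)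
          have haS1 : a ∈ S1 := hR (Finset.mem_insert_self _ _)
          have h5 : (∏ j ∈ R, (1 - x j)) * (avoid A S2).card ≤
              ((avoid A (R ∪ S2)).card : ℝ) := by
            rcases ihR hR' with h | h
            · exact h
            · exact h.2
          have haS2 : a ∉ R ∪ S2 := by
            rw [Finset.mem_union]
            rintro (h | h)
            · exact ha h
            · exact (Finset.mem_filter.1 haS1).2 (Finset.mem_filter.1 h).2
          have hsub : insert a (R ∪ S2) ⊆ S := by
            intro z hz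
            rcases Finset.mem_insert.1 hz with rfl | hz
            · exact (Finset.mem_filter.1 haS1).1
            · rcases Finset.mem_union.1 hz with hz | hz
              · exact (Finset.mem_filter.1 (hR' hz)).1
              · exact (Finset.mem_filter.1 hz).1
          have hlt : (R ∪ S2).card < S.card := by
            have := Finset.card_le_card hsub
            rw [Finset.card_insert_of_notMem haS2] at this
            omega
          have h6 := hstep (R ∪ S2) hlt a haS2
          rw [Finset.insert_union, Finset.prod_insert ha]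
          refine le_trans ?_ h6
          rw [mul_assoc]
          exact mul_le_mul_of_nonneg_left h5 (by linarith [hx1 a])
      have hS12 : S1 ∪ S2 = S := by
        ext j
        simp only [hS1, hS2, Finset.mem_union, Finset.mem_filter]
        tauto
      have h7 : (∏ j ∈ S1, (1 - x j)) * (avoid A S2).card ≤ ((avoid A S).card : ℝ) := by
        rcases hprod S1 subset_rfl with h | h
        · rwa [hS12] at h
        · rw [hS12] at h; exact h.2
      have h8 : (∏ j ∈ Finset.univ.filter (fun j => j ≠ i ∧ ¬ Disjoint (W j) (W i)), (1 - x j)) ≤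
          ∏ j ∈ S1, (1 - x j) := by
        have hsub : S1 ⊆ Finset.univ.filter (fun j => j ≠ i ∧ ¬ Disjoint (W j) (W i)) := by
          intro j hj
          rw [Finset.mem_filter]
          refine ⟨Finset.mem_univ _, ?_, (Finset.mem_filter.1 hj).2⟩
          rintro rfl
          exact hi (Finset.mem_filter.1 hj).1
        rw [← Finset.prod_sdiff hsub]
        have hp : 0 ≤ ∏ j ∈ S1, (1 - x j) :=
          Finset.prod_nonneg fun j _ => by linarith [hx1 j]
        refine mul_le_of_le_one_left hp ?_
        refine Finset.prod_le_one (fun j _ => by linarith [hx1 j]) (fun j _ => by linarith [hx0 j])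
      have h9 : ((A i ∩ avoid A S).card : ℝ) ≤ (A i ∩ avoid A S2).card := by
        have : A i ∩ avoid A S ⊆ A i ∩ avoid A S2 := by
          intro ω hω
          rw [Finset.mem_inter] at hω ⊢
          refine ⟨hω.1, ?_⟩
          simp only [avoid, Finset.mem_filter, Finset.mem_univ, true_and] at hω ⊢
          intro j hj
          exact hω.2 j (Finset.mem_filter.1 hj).1
        exact_mod_cast Finset.card_le_card this
      calc ((A i ∩ avoid A S).card : ℝ) ≤ (A i ∩ avoid A S2).card := h9
        _ ≤ _ := h1
        _ ≤ x i * (∏ j ∈ S1, (1 - x j)) * (avoid A S2).card := by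
          apply mul_le_mul_of_nonneg_right _ (Nat.cast_nonneg _)
          exact mul_le_mul_of_nonneg_left h8 (hx0 i)
        _ = x i * ((∏ j ∈ S1, (1 - x j)) * (avoid A S2).card) := by ring
        _ ≤ x i * (avoid A S).card := mul_le_mul_of_nonneg_left h7 (hx0 i)
  have h := (key (Finset.univ : Finset ι).card Finset.univ le_rfl).1
  have h' : 0 < (avoid A Finset.univ).card := by exact_mod_cast h
  obtain ⟨ω, hω⟩ := Finset.card_pos.1 h'
  refine ⟨ω, fun i => ?_⟩
  simp only [avoid, Finset.mem_filter] at hω
  exact hω.2 i (Finset.mem_univ _)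

end finite

/-- **Lovasz local lemma**, compact version with a summation condition. -/
theorem lll_compact {V α ι : Type*} [Fintype α] [Nonempty α] [DecidableEq α] [DecidableEq V]
    (A : ι → Set (V → α)) (W : ι → Finset V)
    (hA : ∀ i, ∀ ω ω' : V → α, (∀ v ∈ W i, ω v = ω' v) → ω ∈ A i → ω' ∈ A i)
    (x : ι → ℝ) (σ : ℝ) (hx0 : ∀ i, 0 ≤ x i) (hx1 : ∀ i, x i ≤ 1 / 2)
    (hσ : ∀ v, ∀ J : Finset ι, ∑ j ∈ J.filter (fun j => v ∈ W j), x j ≤ σ)
    (hP : ∀ i, ∀ V' : Finset V, W i ⊆ V' → ∀ e : (V' → α) → (V → α),
      (∀ f, ∀ v (hv : v ∈ V'), e f v = f ⟨v, hv⟩) →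
      ∀ B : Finset (V' → α), (∀ f, f ∈ B ↔ e f ∈ A i) →
      (B.card : ℝ) ≤ x i * Real.exp (-(2 * σ * (W i).card)) * (Fintype.card α : ℝ) ^ V'.card) :
    ∃ ω : V → α, ∀ i, ω ∉ A i := by
  classical
  let a0 : α := Classical.arbitrary α
  -- every finite family can be avoided
  have hfin : ∀ J : Finset ι, ∃ ω : V → α, ∀ i ∈ J, ω ∉ A i := by
    intro J
    let V' : Finset V := J.biUnion W
    have hV' : ∀ i ∈ J, W i ⊆ V' := fun i hi => Finset.subset_biUnion_of_mem W hi
    let e : (V' → α) → (V → α) := fun f v => if hv : v ∈ V' then f ⟨v, hv⟩ else a0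
    have he : ∀ f, ∀ v (hv : v ∈ V'), e f v = f ⟨v, hv⟩ := by
      intro f v hv
      simp only [e, dif_pos hv]
    let B : J → Finset (V' → α) := fun i => Finset.univ.filter fun f => e f ∈ A i
    let W' : J → Finset V' := fun i => Finset.univ.filter fun v => (v : V) ∈ W i
    have hex : ∀ t : ℝ, 0 ≤ t → t ≤ 1 / 2 → Real.exp (-(2 * t)) ≤ 1 - t := by
      intro t ht ht2
      have h1 : 2 * t + 1 ≤ Real.exp (2 * t) := Real.add_one_le_exp _
      rw [Real.exp_neg]
      have h2 : 0 < 2 * t + 1 := by linarith
      have h3 : (Real.exp (2 * t))⁻¹ ≤ (2 * t + 1)⁻¹ := inv_anti₀ h2 h1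
      refine h3.trans ?_
      rw [inv_le_iff_one_le_mul₀ h2]
      nlinarith
    obtain ⟨f, hf⟩ := lll_finite (V := V') (α := α) (ι := J) B W' (by
        intro i ω ω' hωω hω
        simp only [B, Finset.mem_filter, Finset.mem_univ, true_and] at hω ⊢
        refine hA i (e ω) (e ω') ?_ hω
        intro v hv
        have hv' : v ∈ V' := hV' i i.2 hv
        rw [he _ v hv', he _ v hv']
        exact hωω ⟨v, hv'⟩ (by simp [W', hv])) (fun i => x i) (fun i => hx0 i)
      (fun i => lt_of_le_of_lt (hx1 i) (by norm_num)) (by
        intro i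
        have h1 := hP i V' (hV' i i.2) e he (B i) (by
          intro f
          simp [B])
        have hcard : (Fintype.card (V' → α) : ℝ) = (Fintype.card α : ℝ) ^ V'.card := by
          rw [Fintype.card_fun, Fintype.card_coe]
          push_cast
          rfl
        rw [hcard]
        refine h1.trans ?_
        refine mul_le_mul_of_nonneg_right ?_ (by positivity)
        refine mul_le_mul_of_nonneg_left ?_ (hx0 i)
        -- exp (-2σ|W|) ≤ ∏ (1 - x_j)
        set Γ : Finset J := Finset.univ.filter (fun j => j ≠ i ∧ ¬ Disjoint (W' j) (W' i)) with hΓ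
        have h2 : ∏ j ∈ Γ, Real.exp (-(2 * x j)) ≤ ∏ j ∈ Γ, (1 - x j) :=
          Finset.prod_le_prod (fun j _ => (Real.exp_pos _).le) (fun j _ => hex _ (hx0 _) (hx1 _))
        refine le_trans ?_ h2
        rw [← Real.exp_sum, Real.exp_le_exp]
        rw [Finset.sum_neg_distrib, neg_le_neg_iff, ← Finset.mul_sum, mul_assoc]
        refine mul_le_mul_of_nonneg_left ?_ (by norm_num)
        -- ∑_{j ∈ Γ} x_j ≤ σ |W i|
        calc ∑ j ∈ Γ, x j ≤ ∑ j ∈ Γ, ∑ v ∈ W i, (if v ∈ W j then x j else 0) := by
              refine Finset.sum_le_sum fun j hj => ?_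
              have hj' := (Finset.mem_filter.1 hj).2.2
              rw [Finset.not_disjoint_iff] at hj'
              obtain ⟨v, hv1, hv2⟩ := hj'
              simp only [W', Finset.mem_filter, Finset.mem_univ, true_and] at hv1 hv2
              calc x j = (if (v : V) ∈ W j then x j else 0) := by rw [if_pos hv1]
                _ ≤ _ := Finset.single_le_sum
                  (f := fun v : V => if v ∈ W (j : ι) then x (j : ι) else 0)
                  (fun w _ => by split_ifs; exacts [hx0 _, le_rfl]) hv2
          _ = ∑ v ∈ W i, ∑ j ∈ Γ, (if v ∈ W j then x j else 0) := Finset.sum_comm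
          _ ≤ ∑ v ∈ W i, σ := by
              refine Finset.sum_le_sum fun v _ => ?_
              have h3 := hσ v (Γ.image (fun j : J => (j : ι)))
              rw [Finset.sum_filter, Finset.sum_image (by
                intro a _ b _ hab; exact Subtype.ext hab)] at h3
              exact h3
          _ = σ * (W i).card := by rw [Finset.sum_const, nsmul_eq_mul, mul_comm])
    refine ⟨e f, fun i hi hcon => ?_⟩
    apply hf ⟨i, hi⟩
    simp only [B, Finset.mem_filter, Finset.mem_univ, true_and]
    exact hcon
  -- compactness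
  letI : TopologicalSpace α := ⊥
  haveI : DiscreteTopology α := ⟨rfl⟩
  have hclosed : ∀ i, IsClosed ((A i)ᶜ) := by
    intro i
    rw [isClosed_compl_iff, isOpen_iff_mem_nhds]
    intro ω hω
    have : (⋂ v ∈ W i, {ω' : V → α | ω' v = ω v}) ∈ nhds ω := by
      rw [Filter.biInter_finset_mem]
      intro v _
      apply IsOpen.mem_nhds
      · have : {ω' : V → α | ω' v = ω v} = (fun ω' : V → α => ω' v) ⁻¹' {ω v} := by
          ext; simp
        rw [this]
        exact (isOpen_discrete _).preimage (continuous_apply v)
      · simp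
    refine Filter.mem_of_superset this ?_
    intro ω' hω'
    simp only [Set.mem_iInter, Set.mem_ofPred_eq] at hω'
    exact hA i ω ω' (fun v hv => (hω' v hv).symm) hω
  by_contra hcon
  push Not at hcon
  have hempty : (Set.univ : Set (V → α)) ∩ ⋂ i, (A i)ᶜ = ∅ := by
    rw [Set.univ_inter, Set.eq_empty_iff_forall_notMem]
    intro ω hω
    obtain ⟨i, hi⟩ := hcon ω
    exact (Set.mem_iInter.1 hω i) hi
  obtain ⟨J, hJ⟩ := isCompact_univ.elim_finite_subfamily_closed _ hclosed hempty
  obtain ⟨ω, hω⟩ := hfin J
  have : ω ∈ (Set.univ : Set (V → α)) ∩ ⋂ i ∈ J, (A i)ᶜ := by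
    refine ⟨Set.mem_univ _, ?_⟩
    simp only [Set.mem_iInter, Set.mem_compl_iff]
    exact hω
  rw [hJ] at this
  exact this

end Pool.Agent.Common_LLL
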